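import Pool.Agent.H31.DP.Targets

/-!
# Board dpt_modules, module FO: periodic weights on the minor arcs
-/

set_option autoImplicit false

open Finset Filter Topology

namespace Pool.Agent.H3.DP

open Pool.Agent.H31.DP

theorem ee_add (x y : ℝ) : ee (x + y) = ee x * ee y := by
  unfold ee
  rw [← Complex.exp_add]
  congr 1
  push_cast
  ring

theorem norm_ee (x : ℝ) : ‖ee x‖ = 1 := by
  unfold ee
  have h : (2 * Real.pi * Complex.I * x : ℂ) = ((2 * Real.pi * x : ℝ) : ℂ) * Complex.I := by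
    push_cast
    ring
  rw [h, Complex.norm_exp_ofReal_mul_I]

theorem ee_nat_mul (n : ℕ) (x : ℝ) : ee (n * x) = ee x ^ n := by
  unfold ee
  rw [← Complex.exp_nat_mul]
  congr 1
  push_cast
  ring

theorem ee_int (m : ℤ) : ee (m : ℝ) = 1 := by
  unfold ee
  rw [Complex.exp_eq_one_iff]
  exact ⟨m, by push_cast; ring⟩

theorem ee_eq_one {q : ℕ} (hq : 0 < q) {m : ℤ} (h : ee ((m : ℝ) / q) = 1) : (q : ℤ) ∣ m := by
  unfold ee at h
  rw [Complex.exp_eq_one_iff] at h
  obtain ⟨n, hn⟩ := h
  have hq' : (q : ℂ) ≠ 0 := by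
    have : q ≠ 0 := hq.ne'
    exact_mod_cast this
  have h1 : (m : ℂ) = q * n := by
    have h2 : (2 * Real.pi * Complex.I : ℂ) ≠ 0 := Complex.two_pi_I_ne_zero
    have h3 : (2 * Real.pi * Complex.I : ℂ) * (m / q) = (2 * Real.pi * Complex.I) * n := by
      rw [mul_comm _ (n : ℂ), ← hn]
      push_cast
      ring
    have h4 := mul_left_cancel₀ h2 h3
    field_simp at h4
    rw [h4]
  exact ⟨n, by exact_mod_cast h1⟩

/-- the sum of a character over the residue classes -/
theorem sum_ee {q : ℕ} (hq : 0 < q) (m : ℤ) :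
    ∑ j ∈ Finset.range q, ee (j * ((m : ℝ) / q)) = if (q : ℤ) ∣ m then (q : ℂ) else 0 := by
  have hq' : (q : ℝ) ≠ 0 := by
    have : q ≠ 0 := hq.ne'
    exact_mod_cast this
  simp only [ee_nat_mul]
  split_ifs with h
  · obtain ⟨k, rfl⟩ := h
    have h1 : ee (((q : ℤ) * k : ℤ) / (q : ℝ)) = 1 := by
      have h2 : (((q : ℤ) * k : ℤ) : ℝ) / (q : ℝ) = (k : ℝ) := by
        push_cast
        field_simp
      rw [h2, ee_int]
    simp only [h1, one_pow]
    simp
  · have h1 : ee ((m : ℝ) / q) ≠ 1 := fun h2 => h (ee_eq_one hq h2)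
    rw [geom_sum_eq h1, ← ee_nat_mul]
    have h2 : (q : ℝ) * ((m : ℝ) / q) = m := by
      field_simp
    rw [h2, ee_int, sub_self, zero_div]

/-- the Fourier expansion of a periodic function -/
theorem expand {q : ℕ} (hq : 0 < q) (u : ℕ → ℂ) (hu : ∀ n, u (n + q) = u n) (n : ℕ) :
    u n = ∑ j ∈ Finset.range q,
      ((1 / q : ℂ) * ∑ b ∈ Finset.range q, u b * ee (-(j * ((b : ℝ) / q)))) *
        ee (n * ((j : ℝ) / q)) := by
  have hq' : (q : ℂ) ≠ 0 := by
    have : q ≠ 0 := hq.ne'
    exact_mod_cast this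
  have h1 : ∀ j ∈ Finset.range q,
      ((1 / q : ℂ) * ∑ b ∈ Finset.range q, u b * ee (-(j * ((b : ℝ) / q)))) *
        ee (n * ((j : ℝ) / q)) =
      ∑ b ∈ Finset.range q, (1 / q : ℂ) * u b * ee (j * (((n - b : ℤ) : ℝ) / q)) := by
    intro j _
    rw [Finset.mul_sum, Finset.sum_mul]
    refine Finset.sum_congr rfl fun b _ => ?_
    have h2 : (j : ℝ) * (((n - b : ℤ) : ℝ) / q) = -(j * ((b : ℝ) / q)) + n * ((j : ℝ) / q) := by
      push_cast
      ring
    rw [h2, ee_add]
    ring
  rw [Finset.sum_congr rfl h1, Finset.sum_comm]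
  simp only [← Finset.mul_sum, sum_ee hq]
  have h3 : ∀ b ∈ Finset.range q, (1 / q : ℂ) * u b * (if (q : ℤ) ∣ (n : ℤ) - b then (q : ℂ) else 0)
      = if b = n % q then u b else 0 := by
    intro b hb
    have hb' := Finset.mem_range.1 hb
    by_cases h4 : b = n % q
    · rw [if_pos h4, if_pos]
      · field_simp
      · rw [h4, Int.natCast_mod]
        exact Int.dvd_self_sub_emod
    · rw [if_neg h4, if_neg, mul_zero]
      intro h5
      apply h4
      have h7 : (n : ℤ) % q = (b : ℤ) % q := Int.ModEq.symm ((Int.modEq_iff_dvd).2 h5)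
      have h8 : (b : ℤ) % q = b := Int.emod_eq_of_lt (by positivity) (by exact_mod_cast hb')
      rw [h8] at h7
      exact_mod_cast h7.symm
  rw [Finset.sum_congr rfl h3, Finset.sum_ite_eq' (Finset.range q) (n % q)]
  rw [if_pos (Finset.mem_range.2 (Nat.mod_lt _ hq))]
  have h9 : Function.Periodic u q := hu
  exact (h9.map_mod_nat n).symm

theorem pf_FO : StatementFO := by
  constructor
  · intro a u q N B θ hq hu hu1 hB
    have hB0 : 0 ≤ B := (norm_nonneg _).trans (hB 0 hq)
    have h1 : ∑ n ∈ Finset.Icc 1 N, a n * u n * ee (n * θ) =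
        ∑ j ∈ Finset.range q,
          ((1 / q : ℂ) * ∑ b ∈ Finset.range q, u b * ee (-(j * ((b : ℝ) / q)))) *
            ∑ n ∈ Finset.Icc 1 N, a n * ee (n * (θ + j / q)) := by
      have h2 : ∀ n ∈ Finset.Icc 1 N, a n * u n * ee (n * θ) = ∑ j ∈ Finset.range q,
          ((1 / q : ℂ) * ∑ b ∈ Finset.range q, u b * ee (-(j * ((b : ℝ) / q)))) *
            (a n * ee (n * (θ + j / q))) := by
        intro n _
        have h3 : a n * u n * ee (n * θ) = u n * (a n * ee (n * θ)) := by ring
        rw [h3, expand hq u hu n, Finset.sum_mul]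
        refine Finset.sum_congr rfl fun j _ => ?_
        have h4 : (n : ℝ) * (θ + j / q) = n * ((j : ℝ) / q) + n * θ := by ring
        rw [h4, ee_add]
        ring
      rw [Finset.sum_congr rfl h2, Finset.sum_comm]
      exact Finset.sum_congr rfl fun j _ => (Finset.mul_sum _ _ _).symm
    rw [h1]
    have hq' : (0 : ℝ) < q := by exact_mod_cast hq
    refine (norm_sum_le _ _).trans ?_
    calc ∑ j ∈ Finset.range q, ‖((1 / q : ℂ) * ∑ b ∈ Finset.range q,
            u b * ee (-(j * ((b : ℝ) / q)))) * ∑ n ∈ Finset.Icc 1 N, a n * ee (n * (θ + j / q))‖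
        ≤ ∑ _j ∈ Finset.range q, 1 * B := by
          refine Finset.sum_le_sum fun j hj => ?_
          rw [norm_mul]
          refine mul_le_mul ?_ (hB j (Finset.mem_range.1 hj)) (norm_nonneg _) zero_le_one
          rw [norm_mul, norm_div, norm_one, Complex.norm_natCast]
          have h5 : ‖∑ b ∈ Finset.range q, u b * ee (-(j * ((b : ℝ) / q)))‖ ≤ q := by
            refine (norm_sum_le _ _).trans ?_
            calc ∑ b ∈ Finset.range q, ‖u b * ee (-(j * ((b : ℝ) / q)))‖
                ≤ ∑ _b ∈ Finset.range q, (1 : ℝ) := by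
                  refine Finset.sum_le_sum fun b _ => ?_
                  rw [norm_mul, norm_ee, mul_one]
                  exact hu1 b
              _ = q := by simp
          calc 1 / (q : ℝ) * ‖∑ b ∈ Finset.range q, u b * ee (-(j * ((b : ℝ) / q)))‖
              ≤ 1 / (q : ℝ) * q := mul_le_mul_of_nonneg_left h5 (by positivity)
            _ = 1 := by field_simp
      _ = q * B := by simp
  · intro K N q j θ hq hM q₁ h1 h2 a
    have hq' : (0 : ℝ) < q := by exact_mod_cast hq
    have h3 := hM (q₁ * q) (Nat.mul_pos h1 hq) (Nat.mul_le_mul_right q h2) (a * q - q₁ * j)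
    push_cast at h3
    have h4 : (q₁ : ℝ) * q * θ - (a * q - q₁ * j) = q * (q₁ * (θ + j / q) - a) := by
      field_simp
      ring
    rw [h4, abs_mul, abs_of_pos hq'] at h3
    have h5 : (K : ℝ) * q ≤ (N * |(q₁ : ℝ) * (θ + j / q) - a|) * q := by
      calc (K : ℝ) * q ≤ N * (q * |(q₁ : ℝ) * (θ + j / q) - a|) := h3
        _ = _ := by ring
    exact le_of_mul_le_mul_right h5 hq'

end Pool.Agent.H3.DP
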