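import Pool.Agent.H25.DP.Targets3
import Pool.Agent.H11.HK.AE
import Pool.Agent.H48.DL.AH

/-!
# (AE2) the identity `Λ^N = ∏ ζ_K^a` for `Re s > 1`, with the coefficients at primes
-/

set_option autoImplicit false

open NumberField Complex Filter Topology

namespace Pool.Agent.H3.DP

open Pool.Agent.H25.HK Pool.Agent.H25 Pool.Agent.H11.HK

/-- completely multiplicative functions with given values at primes. -/
theorem ah' (α : Nat.Primes → ℂ) (hα : ∀ p, ‖α p‖ ≤ 1) : ∃ h : ℕ → ℂ, h 0 = 0 ∧ h 1 = 1 ∧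
    (∀ a b, h (a * b) = h a * h b) ∧ (∀ a, ‖h a‖ ≤ 1) ∧ (∀ p : Nat.Primes, h p = α p) ∧
    ∀ s : ℂ, 1 < s.re →
      HasProd (fun p : Nat.Primes => (1 - α p * ((p : ℕ) : ℂ) ^ (-s))⁻¹)
        (∑' m : ℕ, h m * (m : ℂ) ^ (-s)) := by
  classical
  set a : ℕ → ℂ := fun p => if h : p.Prime then α ⟨p, h⟩ else 0 with ha
  have ha1 : ∀ p, ‖a p‖ ≤ 1 := by
    intro p
    rw [ha]
    dsimp only
    split_ifs with h
    · exact hα _
    · simp
  refine ⟨Pool.Agent.H48.DL.hf a, Pool.Agent.H48.DL.hf_zero a, Pool.Agent.H48.DL.hf_one a,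
    Pool.Agent.H48.DL.hf_mul a, Pool.Agent.H48.DL.hf_le a ha1, fun p => ?_, fun s hs => ?_⟩
  · rw [Pool.Agent.H48.DL.hf_prime a p.2]
    simp only [ha, dif_pos p.2]
    rfl
  · have key := EulerProduct.eulerProduct_completely_multiplicative_hasProd
      (Pool.Agent.H48.DL.summable_hom a ha1 s hs)
    have h2 : (fun p : Nat.Primes => (1 - α p * ((p : ℕ) : ℂ) ^ (-s))⁻¹) =
        fun p : Nat.Primes => (1 - Pool.Agent.H48.DL.hom a s p)⁻¹ := by
      funext p
      change _ = (1 - Pool.Agent.H48.DL.hf a p * ((p : ℕ) : ℂ) ^ (-s))⁻¹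
      rw [Pool.Agent.H48.DL.hf_prime a p.2]
      simp only [ha, dif_pos p.2]
      rfl
    rw [h2]
    exact key

theorem ae2 (hEP : T_EP) (hPE : T_PE) (hTR : T_TR) (hPW : T_PW) (hAI : T_AI) (hLP : T_LP)
    (hAL : DL.T_AL) : DP.T_AE2 := by
  classical
  intro R hR
  obtain ⟨N, s, a, hN, hAI1⟩ := hAI (R.K ≃ₐ[ℚ] R.K) R.V R.rho hR
  choose α hα1 hα2 using fun p => hAL R p
  choose h hz ho hm hle hpr hprod using
    fun j : Fin R.dim => ah' (fun p => α p j) (fun p => hα1 p j)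
  choose k kz ko km kle kser kpow using fun H : Subgroup (R.K ≃ₐ[ℚ] R.K) => hEP (FF R H)
  refine ⟨N, s, a, h, hN, hAI1, hz, ho, hm, hle, ?_, ?_⟩
  · intro p
    have e1 := hPW R.V (R.fr p) (α p) (hα2 p) 1 le_rfl
    rw [pow_one] at e1
    rw [e1]
    refine Finset.sum_congr rfl fun j _ => ?_
    rw [pow_one]
    exact hpr j p
  intro Λ hΛ z hz1
  -- the value of Λ
  have hL1 : HasProd (fun p : Nat.Primes => ∏ j, (1 - α p j * ((p : ℕ) : ℂ) ^ (-z))⁻¹)
      (∏ j, ∑' m : ℕ, h j m * (m : ℂ) ^ (-z)) := hasProd_prod fun j _ => hprod j z hz1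
  have hL2 : (fun p : Nat.Primes => ∏ j, (1 - α p j * ((p : ℕ) : ℂ) ^ (-z))⁻¹) =
      fun p => R.euler p z := by
    funext p
    unfold DL.ArtinRep.euler
    rw [hα2, Finset.prod_inv_distrib]
  have hΛz : Λ z = ∏ j, ∑' m : ℕ, h j m * (m : ℂ) ^ (-z) := by
    rw [hL2] at hL1
    exact (hΛ.2 z hz1).unique hL1
  have hΛne : Λ z ≠ 0 := by
    rw [hΛz]
    exact Finset.prod_ne_zero_iff.mpr fun j _ => ser_ne (h j) (hz j) (ho j) (hm j) (hle j) hz1
  have hζne : ∀ H, dedekindZeta (FF R H) z ≠ 0 := by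
    intro H
    rw [kser H z hz1]
    exact Finset.prod_ne_zero_iff.mpr fun j _ =>
      ser_ne (k H j) (kz H j) (ko H j) (km H j) (kle H j) hz1
  refine ⟨hΛz, hζne, ?_⟩
  have hζ1 : ∀ H, HasProd (fun p : Nat.Primes =>
      ∏ j, (1 - k H j p * ((p : ℕ) : ℂ) ^ (-z))⁻¹) (dedekindZeta (FF R H) z) := by
    intro H
    rw [kser H z hz1]
    exact hasProd_prod fun j _ => ser_prod (k H j) (kz H j) (ko H j) (km H j) (kle H j) hz1
  -- power sums
  have hps : ∀ (p : Nat.Primes) (r : ℕ), 1 ≤ r →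
      (N : ℂ) * ∑ j, α p j ^ r = ∑ H ∈ s, (a H : ℂ) * ∑ j, k H j p ^ r := by
    intro p r hr
    have e1 : LinearMap.trace ℂ R.V (R.fr p ^ r) = ∑ j, α p j ^ r :=
      hPW R.V (R.fr p) (α p) (hα2 p) r hr
    rw [← e1, hTR R p r hr]
    have : Fintype (R.In p) := Fintype.ofFinite _
    rw [finsum_eq_sum_of_fintype, mul_left_comm, Finset.mul_sum]
    simp_rw [hAI1]
    rw [Finset.sum_comm, Finset.mul_sum]
    refine Finset.sum_congr rfl fun H _ => ?_
    rw [kpow H p r p.2 hr, hPE R H p r hr, finsum_eq_sum_of_fintype, Finset.mul_sum,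
      Finset.mul_sum, Finset.mul_sum]
    refine Finset.sum_congr rfl fun g _ => ?_
    ring
  -- the family
  have hfac : ∀ p : Nat.Primes,
      (∏ j, (1 - α p j * ((p : ℕ) : ℂ) ^ (-z))⁻¹) ^ (N : ℤ) *
        ∏ H ∈ s, (∏ j, (1 - k H j p * ((p : ℕ) : ℂ) ^ (-z))⁻¹) ^ (-(a H)) = 1 := by
    intro p
    have hX : ‖((p : ℕ) : ℂ) ^ (-z)‖ < 1 := by
      rw [norm_natCast_cpow_of_pos p.2.pos, neg_re]
      exact Real.rpow_lt_one_of_one_lt_of_neg (by exact_mod_cast p.2.one_lt) (by linarith)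
    have := hLP (Option s) (fun i => i.elim R.dim fun H => Module.finrank ℚ (FF R H.1))
      (fun i => i.elim (N : ℤ) fun H => -(a H.1))
      (fun i => match i with
        | none => α p
        | some H => fun j => k H.1 j p)
      (fun i j => by
        match i with
        | none => exact hα1 p j
        | some H => exact kle H.1 j p)
      (fun r hr => by
        rw [Fintype.sum_option]
        have h1 := hps p r hr
        rw [← Finset.sum_coe_sort s] at h1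
        simp only [Option.elim_none, Option.elim_some, Int.cast_natCast, Int.cast_neg, neg_mul,
          Finset.sum_neg_distrib]
        rw [← sub_eq_add_neg, sub_eq_zero]
        exact h1) _ hX
    rw [Fintype.prod_option] at this
    rw [← Finset.prod_coe_sort s]
    exact this
  have hne : ∀ H ∈ s, dedekindZeta (FF R H) z ≠ 0 := fun H _ => hζne H
  have hA : HasProd (fun p : Nat.Primes =>
      (∏ j, (1 - α p j * ((p : ℕ) : ℂ) ^ (-z))⁻¹) ^ (N : ℤ) *
        ∏ H ∈ s, (∏ j, (1 - k H j p * ((p : ℕ) : ℂ) ^ (-z))⁻¹) ^ (-(a H)))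
      (Λ z ^ (N : ℤ) * ∏ H ∈ s, dedekindZeta (FF R H) z ^ (-(a H))) := by
    refine HasProd.mul ?_ (hasProd_prod fun H _ => hasProd_zpow (hζ1 H) (hζne H) _)
    rw [← hΛz] at hL1
    exact hasProd_zpow hL1 hΛne _
  have hB : HasProd (fun _ : Nat.Primes => (1:ℂ)) 1 := hasProd_one
  simp_rw [hfac] at hA
  have hC := hA.unique hB
  simp_rw [zpow_neg] at hC
  rw [Finset.prod_inv_distrib] at hC
  have hD : ∏ H ∈ s, dedekindZeta (FF R H) z ^ (a H) ≠ 0 :=
    Finset.prod_ne_zero_iff.mpr fun H _ => zpow_ne_zero _ (hζne H)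
  rw [zpow_natCast] at hC
  field_simp at hC
  exact hC

end Pool.Agent.H3.DP
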