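import Pool.Agent.H25.DP.Targets3
import Pool.Agent.H32.PZ.VS

/-!
# (KSU) the sum over `k` for two primes
-/

set_option autoImplicit false

open Complex MeasureTheory Set

namespace Pool.Agent.H3.DP.KSU

open Pool.Agent.H25.DL Pool.Agent.H23.GLH Pool.Agent.H25.DP

/-- Abel summation, exact form. -/
lemma abel_eq (w e : ℕ → ℂ) (A n : ℕ) :
    ∑ k ∈ Finset.Ico A (A + (n + 1)), w k * e k =
      w (A + n) * ∑ k ∈ Finset.Ico A (A + (n + 1)), e k -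
        ∑ i ∈ Finset.range n, (w (A + (i + 1)) - w (A + i)) *
          ∑ k ∈ Finset.Ico A (A + (i + 1)), e k := by
  induction n with
  | zero => simp
  | succ n ih =>
    have h1 : A + (n + 1 + 1) = (A + (n + 1)) + 1 := by ring
    rw [h1, Finset.sum_Ico_succ_top (by omega), ih, Finset.sum_Ico_succ_top (by omega),
      Finset.sum_range_succ]
    ring

lemma abel (w e : ℕ → ℂ) (A n : ℕ) (M : ℝ)
    (hM : ∀ m, m ≤ n + 1 → ‖∑ k ∈ Finset.Ico A (A + m), e k‖ ≤ M) :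
    ‖∑ k ∈ Finset.Ico A (A + (n + 1)), w k * e k‖ ≤
      M * (‖w (A + n)‖ + ∑ i ∈ Finset.range n, ‖w (A + (i + 1)) - w (A + i)‖) := by
  rw [abel_eq, mul_add]
  have hr : M * ∑ i ∈ Finset.range n, ‖w (A + (i + 1)) - w (A + i)‖ =
      ∑ i ∈ Finset.range n, M * ‖w (A + (i + 1)) - w (A + i)‖ := Finset.mul_sum _ _ _
  rw [hr]
  refine (norm_sub_le _ _).trans (add_le_add ?_ ((norm_sum_le _ _).trans
    (Finset.sum_le_sum fun i hi => ?_)))
  · rw [norm_mul, mul_comm]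
    exact mul_le_mul_of_nonneg_right (hM _ le_rfl) (norm_nonneg _)
  · rw [Finset.mem_range] at hi
    rw [norm_mul, mul_comm]
    exact mul_le_mul_of_nonneg_right (hM _ (by omega)) (norm_nonneg _)

lemma conj_sum (s : Finset ℕ) (g : ℕ → ℝ) :
    ‖∑ k ∈ s, cexp ((g k : ℝ) * I)‖ = ‖∑ k ∈ s, cexp ((-g k : ℝ) * I)‖ := by
  rw [← Complex.norm_conj, map_sum]
  congr 1
  refine Finset.sum_congr rfl fun k _ => ?_
  rw [← Complex.exp_conj]
  congr 1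
  simp

lemma d1 (c θ x : ℝ) (hx : 0 < x) :
    HasDerivAt (fun x : ℝ => c * x ^ θ) (c * (θ * x ^ (θ - 1))) x :=
  (Real.hasDerivAt_rpow_const (Or.inl hx.ne')).const_mul c

lemma d2 (c θ x : ℝ) (hx : 0 < x) :
    HasDerivAt (fun x : ℝ => c * (θ * x ^ (θ - 1))) (c * (θ * ((θ - 1) * x ^ (θ - 1 - 1)))) x :=
  ((Real.hasDerivAt_rpow_const (Or.inl hx.ne')).const_mul θ).const_mul c

lemma d3 (c θ x : ℝ) (hx : 0 < x) :
    HasDerivAt (fun x : ℝ => c * (θ * ((θ - 1) * x ^ (θ - 1 - 1))))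
      (c * (θ * ((θ - 1) * ((θ - 1 - 1) * x ^ (θ - 1 - 1 - 1))))) x :=
  (((Real.hasDerivAt_rpow_const (Or.inl hx.ne')).const_mul (θ - 1)).const_mul θ).const_mul c

lemma pow_bd (θ : ℝ) (h0 : 1 / 2 ≤ θ) (h1 : θ < 1) (K x : ℝ) (hK : 1 ≤ K)
    (hx : x ∈ Icc K (2 * K)) : K ^ θ ≤ x ^ θ ∧ x ^ θ ≤ 2 * K ^ θ := by
  refine ⟨Real.rpow_le_rpow (by linarith) hx.1 (by linarith), ?_⟩
  calc x ^ θ ≤ (2 * K) ^ θ := Real.rpow_le_rpow (by linarith [hx.1]) hx.2 (by linarith)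
    _ = 2 ^ θ * K ^ θ := Real.mul_rpow (by norm_num) (by linarith)
    _ ≤ 2 * K ^ θ := by
      have : (2 : ℝ) ^ θ ≤ 2 ^ (1 : ℝ) := Real.rpow_le_rpow_of_exponent_le (by norm_num) h1.le
      rw [Real.rpow_one] at this
      have h2 : 0 ≤ K ^ θ := Real.rpow_nonneg (by linarith) _
      exact mul_le_mul_of_nonneg_right this h2

/-- second derivative bound -/
lemma core2 (θ : ℝ) (h0 : 1 / 2 ≤ θ) (h1 : θ < 1) : ∃ C : ℝ, 0 < C ∧
    ∀ (K A B : ℕ) (G F : ℝ), 1 ≤ K → K ≤ A → A ≤ B → B ≤ 2 * K → 0 < F →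
      F / 32 ≤ G * (K : ℝ) ^ θ → G * (K : ℝ) ^ θ ≤ 16 * F →
      ‖∑ k ∈ Finset.Ico A B, cexp ((G * (k : ℝ) ^ θ : ℝ) * I)‖ ≤
        C * (Real.sqrt F + K / Real.sqrt F) := by
  obtain ⟨C₁, hC₁, hVS⟩ := Pool.Agent.H32.PZ.vs 8 (by norm_num)
  set c : ℝ := θ * (1 - θ) / (8 * Real.pi) with hc
  have hπ := Real.pi_pos
  have hθ : 0 < θ := by linarith
  have hθ1 : 0 < 1 - θ := by linarith
  have hc0 : 0 < c := by positivity
  refine ⟨C₁ * (Real.sqrt (16 * c) + Real.sqrt (32 / c)), by positivity, ?_⟩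
  intro K A B G F hK hKA hAB hB hF hG1 hG2
  have hK1 : (1 : ℝ) ≤ K := by exact_mod_cast hK
  have hK0 : (0 : ℝ) < K := by linarith
  have hKθ : 0 < (K : ℝ) ^ θ := Real.rpow_pos_of_pos hK0 _
  have hG : 0 < G := by
    have : 0 < G * (K : ℝ) ^ θ := by linarith [div_pos hF (by norm_num : (0:ℝ) < 32)]
    exact pos_of_mul_pos_left this hKθ.le
  have hsF : 0 < Real.sqrt F := Real.sqrt_pos.2 hF
  rcases Nat.eq_or_lt_of_le hAB with hEq | hlt
  · rw [hEq]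
    simp only [Finset.Ico_self, Finset.sum_empty, norm_zero]
    positivity
  rw [conj_sum]
  set lam : ℝ := c * (G * (K : ℝ) ^ θ) / (K : ℝ) ^ 2 with hlam
  have hlam0 : 0 < lam := by positivity
  have hmem : ∀ x ∈ Icc (((A : ℤ) : ℤ) : ℝ) (((B : ℤ) - 1 : ℤ) : ℝ),
      x ∈ Icc (K : ℝ) (2 * K) := by
    intro x hx
    have h2 : (A : ℝ) ≤ x := by simpa using hx.1
    have h3 := hx.2
    have h4 : (K : ℝ) ≤ A := by exact_mod_cast hKA
    have h5 : ((B : ℤ) - 1 : ℤ) ≤ 2 * (K : ℤ) := by omega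
    have h6 : (((B : ℤ) - 1 : ℤ) : ℝ) ≤ 2 * K := by exact_mod_cast h5
    exact ⟨by linarith, by linarith⟩
  have key := hVS (A : ℤ) ((B : ℤ) - 1) (fun x => -(G / (2 * Real.pi)) * x ^ θ) _ _ lam hlam0
    (by omega)
    (fun x hx => d1 _ θ x (by linarith [(hmem x hx).1]))
    (fun x hx => d2 _ θ x (by linarith [(hmem x hx).1]))
    (by
      intro x hx
      obtain ⟨hx1, hx2⟩ := hmem x hx
      have hx0 : 0 < x := by linarith
      obtain ⟨hp1, hp2⟩ := pow_bd θ h0 h1 K x hK1 ⟨hx1, hx2⟩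
      have e1 : -(G / (2 * Real.pi)) * (θ * ((θ - 1) * x ^ (θ - 1 - 1))) =
          4 * c * G * (x ^ θ / x ^ 2) := by
        rw [Real.rpow_sub_one hx0.ne', Real.rpow_sub_one hx0.ne', hc]
        field_simp
        ring
      rw [e1]
      have hxx : (K : ℝ) ^ 2 ≤ x ^ 2 := by gcongr
      have hxx2 : x ^ 2 ≤ 4 * (K : ℝ) ^ 2 := by nlinarith
      have hx2p : 0 < x ^ 2 := by positivity
      constructor
      · rw [hlam, div_le_iff₀ (by positivity)]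
        have : c * (G * (K : ℝ) ^ θ) * x ^ 2 ≤ 4 * c * G * x ^ θ * (K : ℝ) ^ 2 := by
          calc c * (G * (K : ℝ) ^ θ) * x ^ 2 ≤ c * (G * x ^ θ) * (4 * (K : ℝ) ^ 2) := by gcongr
            _ = _ := by ring
        rw [← sub_nonneg] at this ⊢
        have e2 : 4 * c * G * (x ^ θ / x ^ 2) * (K : ℝ) ^ 2 - c * (G * (K : ℝ) ^ θ) =
          (4 * c * G * x ^ θ * (K : ℝ) ^ 2 - c * (G * (K : ℝ) ^ θ) * x ^ 2) / x ^ 2 := by
          field_simp
        rw [e2]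
        positivity
      · have : x ^ θ / x ^ 2 ≤ 2 * (K : ℝ) ^ θ / (K : ℝ) ^ 2 := by gcongr
        calc 4 * c * G * (x ^ θ / x ^ 2) ≤ 4 * c * G * (2 * (K : ℝ) ^ θ / (K : ℝ) ^ 2) := by
              gcongr
          _ = 8 * lam := by rw [hlam]; ring)
  have hsum : ∑ k ∈ Finset.Ico A B, cexp ((-(G * (k : ℝ) ^ θ) : ℝ) * I) =
      ∑ n ∈ Finset.Icc (A : ℤ) ((B : ℤ) - 1),
        Pool.Agent.H28.MZ.ei (2 * Real.pi * (fun x : ℝ => -(G / (2 * Real.pi)) * x ^ θ) n) := by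
    refine Finset.sum_nbij' (fun n : ℕ => (n : ℤ)) (fun z : ℤ => z.toNat) ?_ ?_ ?_ ?_ ?_
    · intro n hn
      simp only [Finset.mem_Ico, Finset.mem_Icc] at *
      omega
    · intro z hz
      simp only [Finset.mem_Ico, Finset.mem_Icc] at *
      omega
    · intro n hn
      simp
    · intro z hz
      simp only [Finset.mem_Icc] at hz
      omega
    · intro n hn
      simp only [Pool.Agent.H28.MZ.ei]
      congr 3
      push_cast
      field_simp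
  rw [hsum]
  refine key.trans ?_
  have h2 : ((((B : ℤ) - 1 : ℤ) : ℝ) - (((A : ℤ) : ℤ) : ℝ) + 1) ≤ K := by
    have : (B : ℤ) - 1 - A + 1 ≤ K := by omega
    exact_mod_cast this
  have hsl : 0 < Real.sqrt lam := Real.sqrt_pos.2 hlam0
  have h3 : (K : ℝ) * Real.sqrt lam ≤ Real.sqrt (16 * c) * Real.sqrt F := by
    rw [← Real.sqrt_mul (by positivity)]
    have e1 : (K : ℝ) * Real.sqrt lam = Real.sqrt (K ^ 2 * lam) := by
      rw [Real.sqrt_mul (by positivity), Real.sqrt_sq hK0.le]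
    rw [e1]
    apply Real.sqrt_le_sqrt
    have e2 : (K : ℝ) ^ 2 * lam = c * (G * (K : ℝ) ^ θ) := by
      rw [hlam]; field_simp
    rw [e2]
    nlinarith
  have h4 : 1 / Real.sqrt lam ≤ Real.sqrt (32 / c) * (K / Real.sqrt F) := by
    rw [div_le_iff₀ hsl]
    have e1 : Real.sqrt (32 / c) * (K / Real.sqrt F) * Real.sqrt lam =
        Real.sqrt (32 / c * (K ^ 2 / F) * lam) := by
      rw [Real.sqrt_mul (by positivity), Real.sqrt_mul (by positivity),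
        Real.sqrt_div (show (0 : ℝ) ≤ (K : ℝ) ^ 2 by positivity) F, Real.sqrt_sq hK0.le]
    rw [e1]
    apply Real.le_sqrt_of_sq_le
    have e2 : 32 / c * ((K : ℝ) ^ 2 / F) * lam = 32 * (G * (K : ℝ) ^ θ) / F := by
      rw [hlam]; field_simp
    rw [e2, le_div_iff₀ hF]
    linarith
  have h5 : 0 ≤ Real.sqrt (16 * c) := Real.sqrt_nonneg _
  have h6 : 0 ≤ Real.sqrt (32 / c) := Real.sqrt_nonneg _
  have h7 : 0 ≤ (K : ℝ) / Real.sqrt F := by positivity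
  calc C₁ * (((((B : ℤ) - 1 : ℤ) : ℝ) - (((A : ℤ) : ℤ) : ℝ) + 1) * Real.sqrt lam +
        1 / Real.sqrt lam)
      ≤ C₁ * (K * Real.sqrt lam + 1 / Real.sqrt lam) := by gcongr
    _ ≤ C₁ * (Real.sqrt (16 * c) * Real.sqrt F + Real.sqrt (32 / c) * (K / Real.sqrt F)) := by
      gcongr
    _ ≤ C₁ * ((Real.sqrt (16 * c) + Real.sqrt (32 / c)) * (Real.sqrt F + K / Real.sqrt F)) := by
      refine mul_le_mul_of_nonneg_left ?_ hC₁.le
      nlinarith [mul_nonneg h5 h7, mul_nonneg h6 hsF.le]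
    _ = _ := by ring

/-- third derivative bound -/
lemma core3 (h3 : T_V3) (θ : ℝ) (h0 : 1 / 2 ≤ θ) (h1 : θ < 1) : ∃ C : ℝ, 0 < C ∧
    ∀ (K A B : ℕ) (G F : ℝ), 1 ≤ K → K ≤ A → A ≤ B → B ≤ 2 * K → 0 < F →
      F / 32 ≤ G * (K : ℝ) ^ θ → G * (K : ℝ) ^ θ ≤ 16 * F →
      ‖∑ k ∈ Finset.Ico A B, cexp ((G * (k : ℝ) ^ θ : ℝ) * I)‖ ≤
        C * (Real.sqrt K * F ^ (1 / 6 : ℝ) + K * F ^ (-(1 / 6) : ℝ)) := by
  obtain ⟨C₁, hC₁, hV3⟩ := h3 16 (by norm_num)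
  set c : ℝ := θ * (1 - θ) * (2 - θ) / (16 * Real.pi) with hc
  have hπ := Real.pi_pos
  have hθ : 0 < θ := by linarith
  have hθ1 : 0 < 1 - θ := by linarith
  have hθ2 : 0 < 2 - θ := by linarith
  have hc0 : 0 < c := by positivity
  have hp1 : 0 < (16 * c) ^ (1 / 6 : ℝ) := Real.rpow_pos_of_pos (by positivity) _
  have hp2 : 0 < (c / 32) ^ (-(1 / 6) : ℝ) := Real.rpow_pos_of_pos (by positivity) _
  refine ⟨C₁ * ((16 * c) ^ (1 / 6 : ℝ) + (c / 32) ^ (-(1 / 6) : ℝ)), by positivity, ?_⟩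
  intro K A B G F hK hKA hAB hB hF hG1 hG2
  have hK1 : (1 : ℝ) ≤ K := by exact_mod_cast hK
  have hK0 : (0 : ℝ) < K := by linarith
  have hKθ : 0 < (K : ℝ) ^ θ := Real.rpow_pos_of_pos hK0 _
  have hG : 0 < G := by
    have : 0 < G * (K : ℝ) ^ θ := by linarith [div_pos hF (by norm_num : (0:ℝ) < 32)]
    exact pos_of_mul_pos_left this hKθ.le
  set lam : ℝ := c * (G * (K : ℝ) ^ θ) / (K : ℝ) ^ 3 with hlam
  have hlam0 : 0 < lam := by positivity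
  have hF1 : 0 < F ^ (1 / 6 : ℝ) := Real.rpow_pos_of_pos hF _
  have hF2 : 0 < F ^ (-(1 / 6) : ℝ) := Real.rpow_pos_of_pos hF _
  have key := hV3 K A B (fun x => G / (2 * Real.pi) * x ^ θ) _ _ _ lam hK hKA hAB hB hlam0
    (fun x hx => d1 _ θ x (by linarith [hx.1]))
    (fun x hx => d2 _ θ x (by linarith [hx.1]))
    (fun x hx => d3 _ θ x (by linarith [hx.1]))
    (by
      intro x hx
      obtain ⟨hx1, hx2⟩ := hx
      have hx0 : 0 < x := by linarith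
      obtain ⟨hq1, hq2⟩ := pow_bd θ h0 h1 K x hK1 ⟨hx1, hx2⟩
      have e1 : G / (2 * Real.pi) * (θ * ((θ - 1) * ((θ - 1 - 1) * x ^ (θ - 1 - 1 - 1)))) =
          8 * c * G * (x ^ θ / x ^ 3) := by
        rw [Real.rpow_sub_one hx0.ne', Real.rpow_sub_one hx0.ne', Real.rpow_sub_one hx0.ne', hc]
        field_simp
        ring
      rw [e1]
      have hxx : (K : ℝ) ^ 3 ≤ x ^ 3 := by gcongr
      have hxx2 : x ^ 3 ≤ 8 * (K : ℝ) ^ 3 := by
        calc x ^ 3 ≤ (2 * (K : ℝ)) ^ 3 := by gcongr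
          _ = _ := by ring
      have hx2p : 0 < x ^ 3 := by positivity
      constructor
      · rw [hlam, div_le_iff₀ (by positivity)]
        have : c * (G * (K : ℝ) ^ θ) * x ^ 3 ≤ 8 * c * G * x ^ θ * (K : ℝ) ^ 3 := by
          calc c * (G * (K : ℝ) ^ θ) * x ^ 3 ≤ c * (G * x ^ θ) * (8 * (K : ℝ) ^ 3) := by gcongr
            _ = _ := by ring
        rw [← sub_nonneg] at this ⊢
        have e2 : 8 * c * G * (x ^ θ / x ^ 3) * (K : ℝ) ^ 3 - c * (G * (K : ℝ) ^ θ) =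
          (8 * c * G * x ^ θ * (K : ℝ) ^ 3 - c * (G * (K : ℝ) ^ θ) * x ^ 3) / x ^ 3 := by
          field_simp
        rw [e2]
        positivity
      · have : x ^ θ / x ^ 3 ≤ 2 * (K : ℝ) ^ θ / (K : ℝ) ^ 3 := by gcongr
        calc 8 * c * G * (x ^ θ / x ^ 3) ≤ 8 * c * G * (2 * (K : ℝ) ^ θ / (K : ℝ) ^ 3) := by
              gcongr
          _ = 16 * lam := by rw [hlam]; ring)
  have hsum : ∑ k ∈ Finset.Ico A B, cexp ((G * (k : ℝ) ^ θ : ℝ) * I) =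
      ∑ n ∈ Finset.Ico A B,
        cexp ((2 * Real.pi * (fun x : ℝ => G / (2 * Real.pi) * x ^ θ) n : ℝ) * I) := by
    refine Finset.sum_congr rfl fun n _ => ?_
    congr 3
    field_simp
  rw [hsum]
  refine key.trans ?_
  have hcF : 0 < c * F := by positivity
  have hK3 : ((K : ℝ) ^ 3) ^ (1 / 6 : ℝ) = Real.sqrt K := by
    rw [Real.sqrt_eq_rpow, ← Real.rpow_natCast, ← Real.rpow_mul hK0.le]
    norm_num
  have hK3' : ((K : ℝ) ^ 3) ^ (-(1 / 6) : ℝ) = 1 / Real.sqrt K := by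
    rw [Real.rpow_neg (by positivity), hK3, one_div]
  have hsK : 0 < Real.sqrt K := Real.sqrt_pos.2 hK0
  have hsK2 : Real.sqrt K * Real.sqrt K = K := Real.mul_self_sqrt hK0.le
  have h4 : (K : ℝ) * lam ^ (1 / 6 : ℝ) ≤
      (16 * c) ^ (1 / 6 : ℝ) * (Real.sqrt K * F ^ (1 / 6 : ℝ)) := by
    have e1 : lam ≤ (16 * c) * F / (K : ℝ) ^ 3 := by
      rw [hlam]
      gcongr ?_ / _
      nlinarith
    calc (K : ℝ) * lam ^ (1 / 6 : ℝ) ≤ K * ((16 * c) * F / (K : ℝ) ^ 3) ^ (1 / 6 : ℝ) := by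
          gcongr
      _ = K * ((16 * c) ^ (1 / 6 : ℝ) * F ^ (1 / 6 : ℝ) / Real.sqrt K) := by
          rw [Real.div_rpow (by positivity) (by positivity),
            Real.mul_rpow (by positivity) hF.le, hK3]
      _ = (16 * c) ^ (1 / 6 : ℝ) * (Real.sqrt K * F ^ (1 / 6 : ℝ)) := by
          nth_rewrite 1 [← hsK2]
          field_simp
  have h5 : (K : ℝ) ^ (1 / 2 : ℝ) * lam ^ (-(1 / 6) : ℝ) ≤
      (c / 32) ^ (-(1 / 6) : ℝ) * (K * F ^ (-(1 / 6) : ℝ)) := by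
    have e1 : (c / 32) * F / (K : ℝ) ^ 3 ≤ lam := by
      rw [hlam]
      gcongr ?_ / _
      nlinarith
    calc (K : ℝ) ^ (1 / 2 : ℝ) * lam ^ (-(1 / 6) : ℝ)
        ≤ (K : ℝ) ^ (1 / 2 : ℝ) * ((c / 32) * F / (K : ℝ) ^ 3) ^ (-(1 / 6) : ℝ) := by
          refine mul_le_mul_of_nonneg_left ?_ (by positivity)
          exact Real.rpow_le_rpow_of_nonpos (by positivity) e1 (by norm_num)
      _ = Real.sqrt K * ((c / 32) ^ (-(1 / 6) : ℝ) * F ^ (-(1 / 6) : ℝ) * Real.sqrt K) := by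
          rw [Real.div_rpow (by positivity) (by positivity),
            Real.mul_rpow (by positivity) hF.le, hK3', ← Real.sqrt_eq_rpow]
          congr 1
          field_simp
      _ = (c / 32) ^ (-(1 / 6) : ℝ) * (K * F ^ (-(1 / 6) : ℝ)) := by
          nth_rewrite 3 [← hsK2]
          ring
  have h7 : 0 ≤ (K : ℝ) * F ^ (-(1 / 6) : ℝ) := by positivity
  have h8 : 0 ≤ Real.sqrt K * F ^ (1 / 6 : ℝ) := by positivity
  calc C₁ * ((K : ℝ) * lam ^ (1 / 6 : ℝ) + (K : ℝ) ^ (1 / 2 : ℝ) * lam ^ (-(1 / 6) : ℝ))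
      ≤ C₁ * ((16 * c) ^ (1 / 6 : ℝ) * (Real.sqrt K * F ^ (1 / 6 : ℝ)) +
          (c / 32) ^ (-(1 / 6) : ℝ) * (K * F ^ (-(1 / 6) : ℝ))) := by gcongr
    _ ≤ C₁ * (((16 * c) ^ (1 / 6 : ℝ) + (c / 32) ^ (-(1 / 6) : ℝ)) *
          (Real.sqrt K * F ^ (1 / 6 : ℝ) + K * F ^ (-(1 / 6) : ℝ))) := by
      refine mul_le_mul_of_nonneg_left ?_ hC₁.le
      nlinarith [mul_nonneg hp1.le h7, mul_nonneg hp2.le h8]
    _ = _ := by ring

/-- both bounds, for either sign of `G` -/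
lemma core (h3 : T_V3) (θ : ℝ) (h0 : 1 / 2 ≤ θ) (h1 : θ < 1) : ∃ C : ℝ, 0 < C ∧
    ∀ (K A B : ℕ) (G F : ℝ), 1 ≤ K → K ≤ A → A ≤ B → B ≤ 2 * K → 0 < F →
      F / 32 ≤ |G| * (K : ℝ) ^ θ → |G| * (K : ℝ) ^ θ ≤ 16 * F →
      ‖∑ k ∈ Finset.Ico A B, cexp ((G * (k : ℝ) ^ θ : ℝ) * I)‖ ≤
        C * min (Real.sqrt F + K / Real.sqrt F)
          (Real.sqrt K * F ^ (1 / 6 : ℝ) + K * F ^ (-(1 / 6) : ℝ)) := by
  obtain ⟨C₁, hC₁, hc1⟩ := core2 θ h0 h1
  obtain ⟨C₂, hC₂, hc2⟩ := core3 h3 θ h0 h1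
  refine ⟨max C₁ C₂, lt_max_of_lt_left hC₁, ?_⟩
  intro K A B G F hK hKA hAB hB hF hG1 hG2
  have habs : ‖∑ k ∈ Finset.Ico A B, cexp ((G * (k : ℝ) ^ θ : ℝ) * I)‖ =
      ‖∑ k ∈ Finset.Ico A B, cexp ((|G| * (k : ℝ) ^ θ : ℝ) * I)‖ := by
    rcases abs_choice G with h | h
    · rw [h]
    · rw [h, conj_sum]
      congr 1
      refine Finset.sum_congr rfl fun k _ => ?_
      congr 3
      ring
  rw [habs]
  have hK0 : (0 : ℝ) < K := by exact_mod_cast hK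
  have hsF : 0 < Real.sqrt F := Real.sqrt_pos.2 hF
  have ha := hc1 K A B |G| F hK hKA hAB hB hF hG1 hG2
  have hb := hc2 K A B |G| F hK hKA hAB hB hF hG1 hG2
  have p1 : 0 ≤ Real.sqrt F + K / Real.sqrt F := by positivity
  have p2 : 0 ≤ Real.sqrt K * F ^ (1 / 6 : ℝ) + K * F ^ (-(1 / 6) : ℝ) := by positivity
  rcases min_choice (Real.sqrt F + K / Real.sqrt F)
    (Real.sqrt K * F ^ (1 / 6 : ℝ) + K * F ^ (-(1 / 6) : ℝ)) with h | h
  · rw [h]
    exact ha.trans (mul_le_mul_of_nonneg_right (le_max_left _ _) p1)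
  · rw [h]
    exact hb.trans (mul_le_mul_of_nonneg_right (le_max_right _ _) p2)

open scoped Classical in
lemma filter_Ico (K L : ℕ) (P : ℕ → Prop)
    (hP : ∀ a b c, K ≤ a → a ≤ b → b ≤ c → P a → P c → P b) :
    (Finset.Ico K L).filter P = ∅ ∨ ∃ A n, K ≤ A ∧ A + (n + 1) ≤ L ∧ P A ∧ P (A + n) ∧
      (Finset.Ico K L).filter P = Finset.Ico A (A + (n + 1)) := by
  rcases Finset.eq_empty_or_nonempty ((Finset.Ico K L).filter P) with h | h
  · exact Or.inl h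
  right
  set S := (Finset.Ico K L).filter P with hS
  have hmin := S.min'_mem h
  have hmax := S.max'_mem h
  have hle : S.min' h ≤ S.max' h := S.min'_le _ hmax
  have hmin := Finset.mem_filter.1 hmin
  have hmax := Finset.mem_filter.1 hmax
  rw [Finset.mem_Ico] at hmin hmax
  refine ⟨S.min' h, S.max' h - S.min' h, hmin.1.1, by have := hmax.1.2; omega, hmin.2, ?_, ?_⟩
  · rw [Nat.add_sub_cancel' hle]
    exact hmax.2
  · ext k
    rw [Finset.mem_Ico]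
    constructor
    · intro hk
      have h1 := S.min'_le k hk
      have h2 := S.le_max' k hk
      omega
    · intro hk
      have h1 : k ≤ S.max' h := by omega
      rw [hS, Finset.mem_filter, Finset.mem_Ico]
      exact ⟨⟨hmin.1.1.trans hk.1, lt_of_le_of_lt h1 hmax.1.2⟩,
        hP _ k _ hmin.1.1 hk.1 h1 hmin.2 hmax.2⟩

lemma ratio' (θ : ℝ) (h0 : 1 / 2 ≤ θ) (h1 : θ < 1) (c p p' X T d Q : ℝ) (hc : 0 < c)
    (hX : 0 < X) (hp2 : p ≤ 2 * X) (hp' : X ≤ p') (hpp : p' ≤ p)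
    (hd1 : 1 < d) (hd2 : d ≤ 2) (hT : 0 < T)
    (hQ1 : T / 8 ≤ (c * p) ^ θ * Q) (hQ2 : (c * p) ^ θ * Q ≤ 8 * T) (hQ : 0 < Q) :
    T * |p - p'| / X / 32 ≤ |d * ((c * p) ^ θ - (c * p') ^ θ)| * Q ∧
      |d * ((c * p) ^ θ - (c * p') ^ θ)| * Q ≤ 16 * (T * |p - p'| / X) := by
  have hp0 : 0 < p' := by linarith
  have hpp0 : 0 < p := by linarith
  set q : ℝ := p' / p with hq
  have hq0 : 0 < q := by positivity
  have hq1 : q ≤ 1 := by
    rw [hq, div_le_one hpp0]; exact hpp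
  have e1 : (c * p') ^ θ = (c * p) ^ θ * q ^ θ := by
    rw [← Real.mul_rpow (by positivity) hq0.le]
    congr 1
    rw [hq]
    field_simp
  have e2 : |p - p'| = p * (1 - q) := by
    rw [abs_of_nonneg (by linarith), hq]
    field_simp
  have l1 : q ≤ q ^ θ := by
    calc q = q ^ (1 : ℝ) := (Real.rpow_one q).symm
      _ ≤ q ^ θ := Real.rpow_le_rpow_of_exponent_ge hq0 hq1 h1.le
  have l2 : q ^ θ ≤ Real.sqrt q := by
    rw [Real.sqrt_eq_rpow]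
    exact Real.rpow_le_rpow_of_exponent_ge hq0 hq1 h0
  have l3 : Real.sqrt q ≤ (1 + q) / 2 := by
    have h2 : Real.sqrt q ^ 2 = q := Real.sq_sqrt hq0.le
    nlinarith [sq_nonneg (Real.sqrt q - 1)]
  have hR : 0 < (c * p) ^ θ := Real.rpow_pos_of_pos (by positivity) _
  have e3 : |d * ((c * p) ^ θ - (c * p') ^ θ)| * Q = d * (((c * p) ^ θ * Q) * (1 - q ^ θ)) := by
    rw [e1]
    have : 0 ≤ d * ((c * p) ^ θ - (c * p) ^ θ * q ^ θ) := by
      have h2 : 0 ≤ 1 - q ^ θ := by linarith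
      have e4 : d * ((c * p) ^ θ - (c * p) ^ θ * q ^ θ) = d * ((c * p) ^ θ * (1 - q ^ θ)) := by ring
      rw [e4]
      positivity
    rw [abs_of_nonneg this]
    ring
  rw [e3, e2]
  set R : ℝ := (c * p) ^ θ * Q with hRdef
  have hR0 : 0 < R := by positivity
  have g1 : (1 - q) / 2 ≤ 1 - q ^ θ := by linarith
  have g2 : 1 - q ^ θ ≤ 1 - q := by linarith
  have g0 : 0 ≤ 1 - q := by linarith
  constructor
  · have s1 : T * (p * (1 - q)) / X ≤ T * (2 * (1 - q)) := by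
      rw [div_le_iff₀ hX]
      have := mul_le_mul_of_nonneg_right hp2 (mul_nonneg hT.le g0)
      nlinarith
    have s2 : T / 8 * ((1 - q) / 2) ≤ R * (1 - q ^ θ) :=
      mul_le_mul hQ1 g1 (by linarith) hR0.le
    have s3 : R * (1 - q ^ θ) ≤ d * (R * (1 - q ^ θ)) := by
      have : 0 ≤ R * (1 - q ^ θ) := mul_nonneg hR0.le (by linarith)
      nlinarith
    linarith
  · have s1 : T * (1 - q) ≤ T * (p * (1 - q)) / X := by
      rw [le_div_iff₀ hX]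
      have : X ≤ p := hp'.trans hpp
      have := mul_le_mul_of_nonneg_right this (mul_nonneg hT.le g0)
      nlinarith
    have s2 : R * (1 - q ^ θ) ≤ 8 * T * (1 - q) :=
      mul_le_mul hQ2 g2 (by linarith) (by positivity)
    have s3 : d * (R * (1 - q ^ θ)) ≤ 2 * (8 * T * (1 - q)) := by
      have : 0 ≤ R * (1 - q ^ θ) := mul_nonneg hR0.le (by linarith)
      gcongr
    linarith

lemma ratio (θ : ℝ) (h0 : 1 / 2 ≤ θ) (h1 : θ < 1) (c p p' X T d Q : ℝ) (hc : 0 < c)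
    (hX : 0 < X) (hp : X ≤ p) (hp2 : p ≤ 2 * X) (hp' : X ≤ p') (hp2' : p' ≤ 2 * X)
    (hd1 : 1 < d) (hd2 : d ≤ 2) (hT : 0 < T)
    (hQ1 : T / 8 ≤ (c * p) ^ θ * Q) (hQ2 : (c * p) ^ θ * Q ≤ 8 * T)
    (hQ1' : T / 8 ≤ (c * p') ^ θ * Q) (hQ2' : (c * p') ^ θ * Q ≤ 8 * T) (hQ : 0 < Q) :
    T * |p - p'| / X / 32 ≤ |d * ((c * p') ^ θ - (c * p) ^ θ)| * Q ∧
      |d * ((c * p') ^ θ - (c * p) ^ θ)| * Q ≤ 16 * (T * |p - p'| / X) := by
  have e : |d * ((c * p') ^ θ - (c * p) ^ θ)| = |d * ((c * p) ^ θ - (c * p') ^ θ)| := by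
    rw [← abs_neg]
    congr 1
    ring
  rcases le_total p' p with h | h
  · rw [e]
    exact ratio' θ h0 h1 c p p' X T d Q hc hX hp2 hp' h hd1 hd2 hT hQ1 hQ2 hQ
  · rw [abs_sub_comm p p']
    exact ratio' θ h0 h1 c p' p X T d Q hc hX hp2' hp h hd1 hd2 hT hQ1' hQ2' hQ

lemma Vv_eq (d B ν k p : ℝ) (hν : 0 < ν) (hk : 0 ≤ k) (hp : 0 < p) :
    Vv d B (ν * k * p) = ((ν * Real.exp (-B - d)) * p) ^ (1 / d) * k ^ (1 / d) := by
  rw [← Real.mul_rpow (by positivity) hk, Vv]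
  congr 1
  ring

lemma IOV (d B η H W y lam : ℝ) (hd : 0 < d) (hlam : 0 < lam) :
    IO d B η H W y (Real.log lam) = cexp ((-(d * Vv d B lam) : ℝ) * I) *
      (cexp ((d * Vv d B lam : ℝ) * I) *
        IO d B η H W y (d * Real.log (Vv d B lam) + d + B)) := by
  have e1 : d * Real.log (Vv d B lam) + d + B = Real.log lam := by
    rw [Vv, Real.log_rpow (by positivity), Real.log_mul hlam.ne' (Real.exp_ne_zero _),
      Real.log_exp]
    field_simp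
    ring
  rw [e1, ← mul_assoc, ← Complex.exp_add]
  have e2 : ((-(d * Vv d B lam) : ℝ) : ℂ) * I + ((d * Vv d B lam : ℝ) : ℂ) * I = 0 := by
    push_cast
    ring
  rw [e2, Complex.exp_zero, one_mul]

end Pool.Agent.H3.DP.KSU

namespace Pool.Agent.H3.DP

open Pool.Agent.H25.DL Pool.Agent.H23.GLH Pool.Agent.H25.DP KSU

theorem ksu (h1 : T_IOA) (h2 : T_JL) (h3 : T_V3) : T_KSU := by
  intro d B η hd1 hd2
  have hd0 : 0 < d := by linarith
  have hθ0 : 1 / 2 ≤ 1 / d := one_div_le_one_div_of_le hd0 hd2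
  have hθ1 : 1 / d < 1 := by
    rw [div_lt_one hd0]; exact hd1
  obtain ⟨C₁, T₁, hC₁, hIOA⟩ := h1 d B η hd0
  obtain ⟨C₂, T₂, hC₂, hJL⟩ := h2 d B η hd0
  obtain ⟨C₃, hC₃, hcore⟩ := core h3 (1 / d) hθ0 hθ1
  refine ⟨C₃ * (C₁ ^ 2 + 16 * (C₁ * C₂)), max 1 (max T₁ T₂), by positivity, ?_⟩
  intro T hT H W y hH hW hHW hy ν K X p p' hν hK hp hp' hpp'
  have hT1 : 1 ≤ T := (le_max_left _ _).trans hT
  have hTa : T₁ ≤ T := (le_max_left _ _).trans ((le_max_right _ _).trans hT)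
  have hTb : T₂ ≤ T := (le_max_right _ _).trans ((le_max_right _ _).trans hT)
  have hT0 : 0 < T := by linarith
  have hW0 : 0 < W := by linarith
  rw [Finset.mem_Ico] at hp hp'
  have hX : 0 < X := by omega
  have hXR : (0 : ℝ) < X := by exact_mod_cast hX
  have hpX : (X : ℝ) ≤ p := by exact_mod_cast hp.1
  have hpX' : (X : ℝ) ≤ p' := by exact_mod_cast hp'.1
  have hpX2 : (p : ℝ) ≤ 2 * X := by exact_mod_cast hp.2.le
  have hpX2' : (p' : ℝ) ≤ 2 * X := by exact_mod_cast hp'.2.le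
  have hp0 : (0 : ℝ) < p := by linarith
  have hp0' : (0 : ℝ) < p' := by linarith
  have hKR : (0 : ℝ) < K := by exact_mod_cast hK
  set θ : ℝ := 1 / d with hθ
  set c : ℝ := ν * Real.exp (-B - d) with hc
  have hc0 : 0 < c := by positivity
  set F : ℝ := T * |(p : ℝ) - p'| / X with hF
  have hF0 : 0 < F := by
    have : (p : ℝ) - p' ≠ 0 := sub_ne_zero.2 (by exact_mod_cast hpp')
    positivity
  set V1 : ℕ → ℝ := fun k => Vv d B (ν * k * p) with hV1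
  set V2 : ℕ → ℝ := fun k => Vv d B (ν * k * p') with hV2
  have hV1e : ∀ k, V1 k = (c * p) ^ θ * (k : ℝ) ^ θ := fun k =>
    Vv_eq d B ν k p hν (Nat.cast_nonneg k) hp0
  have hV2e : ∀ k, V2 k = (c * p') ^ θ * (k : ℝ) ^ θ := fun k =>
    Vv_eq d B ν k p' hν (Nat.cast_nonneg k) hp0'
  have hθpos : 0 < θ := by linarith
  have hmono1 : Monotone V1 := by
    intro a b hab
    rw [hV1e, hV1e]
    have : (a : ℝ) ≤ b := by exact_mod_cast hab
    gcongr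
  have hmono2 : Monotone V2 := by
    intro a b hab
    rw [hV2e, hV2e]
    have : (a : ℝ) ≤ b := by exact_mod_cast hab
    gcongr
  set m : ℝ := min (Real.sqrt F + K / Real.sqrt F)
    (Real.sqrt K * F ^ (1 / 6 : ℝ) + K * F ^ (-(1 / 6) : ℝ)) with hm
  have hm0 : 0 ≤ m := by
    have := Real.rpow_nonneg hF0.le (1 / 6 : ℝ)
    have := Real.rpow_nonneg hF0.le (-(1 / 6) : ℝ)
    exact le_min (by positivity) (by positivity)
  rw [← Finset.sum_filter]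
  rcases filter_Ico K (2 * K) (fun k => (T / 4 ≤ V1 k ∧ V1 k ≤ 8 * T) ∧
      (T / 4 ≤ V2 k ∧ V2 k ≤ 8 * T)) (by
        intro a b e _ hab hbe h h'
        exact ⟨⟨h.1.1.trans (hmono1 hab), (hmono1 hbe).trans h'.1.2⟩,
          ⟨h.2.1.trans (hmono2 hab), (hmono2 hbe).trans h'.2.2⟩⟩) with h | ⟨A, n, hKA, hAn, hPA, hPn, h⟩
  · rw [Finset.sum_congr (s₂ := ∅) (by convert h) (fun _ _ => rfl)]
    simp only [Finset.sum_empty, norm_zero]
    positivity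
  rw [Finset.sum_congr (s₂ := Finset.Ico A (A + (n + 1))) (by convert h) (fun _ _ => rfl)]
  set J : ℝ → ℂ := fun V => cexp ((d * V : ℝ) * I) * IO d B η H W y (d * Real.log V + d + B)
    with hJ
  have hsT : 0 < Real.sqrt T := Real.sqrt_pos.2 hT0
  have hsT2 : Real.sqrt T * Real.sqrt T = T := Real.mul_self_sqrt hT0.le
  have hJb : ∀ V, ‖J V‖ ≤ C₁ * Real.sqrt T := by
    intro V
    rw [hJ]
    simp only
    rw [norm_mul, Complex.norm_exp_ofReal_mul_I, one_mul]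
    refine (hIOA T hTa H W y _ hH hW0 hHW hy).trans ?_
    exact mul_le_mul_of_nonneg_left (min_le_right _ _) hC₁.le
  have hJl : ∀ V V', T / 4 ≤ V → V ≤ 8 * T → T / 4 ≤ V' → V' ≤ 8 * T →
      ‖J V - J V'‖ ≤ C₂ * |V - V'| / Real.sqrt T := fun V V' a1 a2 a3 a4 =>
    hJL T hTb H W y V V' hH hW hHW hy (by linarith) (by linarith) (by linarith) (by linarith)
  set G : ℝ := d * ((c * p') ^ θ - (c * p) ^ θ) with hG
  set w : ℕ → ℂ := fun k => J (V1 k) * (starRingEnd ℂ) (J (V2 k)) with hw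
  have hterm : ∀ k ∈ Finset.Ico A (A + (n + 1)),
      IO d B η H W y (Real.log (ν * k * p)) *
        (starRingEnd ℂ) (IO d B η H W y (Real.log (ν * k * p'))) =
      w k * cexp ((G * (k : ℝ) ^ θ : ℝ) * I) := by
    intro k hk
    rw [Finset.mem_Ico] at hk
    have hk0 : (0 : ℝ) < k := by
      have : 0 < k := by omega
      exact_mod_cast this
    rw [IOV d B η H W y (ν * k * p) hd0 (by positivity),
      IOV d B η H W y (ν * k * p') hd0 (by positivity)]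
    have e0 : ((G * (k : ℝ) ^ θ : ℝ) : ℂ) * I =
        ((-(d * V1 k) : ℝ) : ℂ) * I + ((d * V2 k : ℝ) : ℂ) * I := by
      rw [hV1e, hV2e, hG]
      push_cast
      ring
    rw [e0, Complex.exp_add, map_mul]
    have e1 : (starRingEnd ℂ) (cexp ((-(d * Vv d B (ν * k * p')) : ℝ) * I)) =
        cexp ((d * V2 k : ℝ) * I) := by
      rw [← Complex.exp_conj]
      congr 1
      simp [hV2]
    rw [e1, hw]
    simp only [hJ, hV1, hV2]
    ring
  rw [Finset.sum_congr rfl hterm]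
  -- size of `G`
  have hQ : 0 < (K : ℝ) ^ θ := Real.rpow_pos_of_pos hKR _
  have hA2 : ∀ j : ℕ, K ≤ j → j ≤ 2 * K → (K : ℝ) ^ θ ≤ (j : ℝ) ^ θ ∧
      (j : ℝ) ^ θ ≤ 2 * (K : ℝ) ^ θ := by
    intro j hj1 hj2
    refine pow_bd θ hθ0 hθ1 K j (by exact_mod_cast hK) ⟨by exact_mod_cast hj1, ?_⟩
    exact_mod_cast hj2
  obtain ⟨hA3, hA4⟩ := hA2 A hKA (by omega)
  have hcp : 0 < (c * p) ^ θ := Real.rpow_pos_of_pos (by positivity) _
  have hcp' : 0 < (c * p') ^ θ := Real.rpow_pos_of_pos (by positivity) _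
  have hPA' := hPA
  rw [hV1e, hV2e] at hPA'
  have q1 : T / 8 ≤ (c * p) ^ θ * (K : ℝ) ^ θ := by
    have := mul_le_mul_of_nonneg_left hA4 hcp.le
    linarith [hPA'.1.1]
  have q2 : (c * p) ^ θ * (K : ℝ) ^ θ ≤ 8 * T :=
    (mul_le_mul_of_nonneg_left hA3 hcp.le).trans hPA'.1.2
  have q3 : T / 8 ≤ (c * p') ^ θ * (K : ℝ) ^ θ := by
    have := mul_le_mul_of_nonneg_left hA4 hcp'.le
    linarith [hPA'.2.1]
  have q4 : (c * p') ^ θ * (K : ℝ) ^ θ ≤ 8 * T :=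
    (mul_le_mul_of_nonneg_left hA3 hcp'.le).trans hPA'.2.2
  obtain ⟨g1, g2⟩ := ratio θ hθ0 hθ1 c p p' X T d ((K : ℝ) ^ θ) hc0 hXR hpX hpX2 hpX' hpX2'
    hd1 hd2 hT0 q1 q2 q3 q4 hQ
  have hMb : ∀ j, j ≤ n + 1 → ‖∑ k ∈ Finset.Ico A (A + j), cexp ((G * (k : ℝ) ^ θ : ℝ) * I)‖ ≤
      C₃ * m := by
    intro j hj
    exact hcore K A (A + j) G F hK hKA (by omega) (by omega) hF0 g1 g2
  have hab := abel w (fun k => cexp ((G * (k : ℝ) ^ θ : ℝ) * I)) A n (C₃ * m) hMb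
  refine hab.trans ?_
  have hP : ∀ i, i ≤ n → (T / 4 ≤ V1 (A + i) ∧ V1 (A + i) ≤ 8 * T) ∧
      (T / 4 ≤ V2 (A + i) ∧ V2 (A + i) ≤ 8 * T) := by
    intro i hi
    exact ⟨⟨hPA.1.1.trans (hmono1 (by omega)), (hmono1 (by omega)).trans hPn.1.2⟩,
      ⟨hPA.2.1.trans (hmono2 (by omega)), (hmono2 (by omega)).trans hPn.2.2⟩⟩
  have hwb : ‖w (A + n)‖ ≤ C₁ ^ 2 * T := by
    rw [hw]
    simp only
    rw [norm_mul, Complex.norm_conj]
    calc ‖J (V1 (A + n))‖ * ‖J (V2 (A + n))‖ ≤ (C₁ * Real.sqrt T) * (C₁ * Real.sqrt T) :=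
          mul_le_mul (hJb _) (hJb _) (norm_nonneg _) (by positivity)
      _ = C₁ ^ 2 * T := by
        nth_rewrite 3 [← hsT2]
        ring
  have hwd : ∀ i ∈ Finset.range n, ‖w (A + (i + 1)) - w (A + i)‖ ≤
      C₁ * C₂ * ((V1 (A + (i + 1)) + V2 (A + (i + 1))) - (V1 (A + i) + V2 (A + i))) := by
    intro i hi
    rw [Finset.mem_range] at hi
    have a1 := hP i hi.le
    have a2 := hP (i + 1) hi
    have e1 : w (A + (i + 1)) - w (A + i) =
        (J (V1 (A + (i + 1))) - J (V1 (A + i))) * (starRingEnd ℂ) (J (V2 (A + (i + 1)))) +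
          J (V1 (A + i)) * (starRingEnd ℂ) (J (V2 (A + (i + 1))) - J (V2 (A + i))) := by
      rw [hw, map_sub]
      ring
    rw [e1]
    refine (norm_add_le _ _).trans ?_
    rw [norm_mul, norm_mul, Complex.norm_conj, Complex.norm_conj]
    have b1 := hJl _ _ a2.1.1 a2.1.2 a1.1.1 a1.1.2
    have b2 := hJl _ _ a2.2.1 a2.2.2 a1.2.1 a1.2.2
    rw [abs_of_nonneg (sub_nonneg.2 (hmono1 (show A + i ≤ A + (i + 1) by omega)))] at b1
    rw [abs_of_nonneg (sub_nonneg.2 (hmono2 (show A + i ≤ A + (i + 1) by omega)))] at b2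
    have d1 : 0 ≤ V1 (A + (i + 1)) - V1 (A + i) :=
      sub_nonneg.2 (hmono1 (show A + i ≤ A + (i + 1) by omega))
    have d2 : 0 ≤ V2 (A + (i + 1)) - V2 (A + i) :=
      sub_nonneg.2 (hmono2 (show A + i ≤ A + (i + 1) by omega))
    have c1 := mul_le_mul b1 (hJb (V2 (A + (i + 1)))) (norm_nonneg _) (by positivity)
    have c2 := mul_le_mul (hJb (V1 (A + i))) b2 (norm_nonneg _) (by positivity)
    refine (add_le_add c1 c2).trans (le_of_eq ?_)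
    field_simp
    ring
  have htel : ∑ i ∈ Finset.range n, ‖w (A + (i + 1)) - w (A + i)‖ ≤ C₁ * C₂ * (16 * T) := by
    refine (Finset.sum_le_sum hwd).trans ?_
    rw [← Finset.mul_sum]
    refine mul_le_mul_of_nonneg_left ?_ (by positivity)
    have := Finset.sum_range_sub (fun i => V1 (A + i) + V2 (A + i)) n
    rw [this]
    have a1 := hP n le_rfl
    have a2 := hP 0 (Nat.zero_le _)
    linarith [a1.1.2, a1.2.2, a2.1.1, a2.2.1]
  calc C₃ * m * (‖w (A + n)‖ + ∑ i ∈ Finset.range n, ‖w (A + (i + 1)) - w (A + i)‖)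
      ≤ C₃ * m * (C₁ ^ 2 * T + C₁ * C₂ * (16 * T)) := by gcongr
    _ = C₃ * (C₁ ^ 2 + 16 * (C₁ * C₂)) * T * m := by ring

end Pool.Agent.H3.DP
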