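import Pool.Agent.H31.DP.Targets

/-!
# Board dpt_modules, module M2: the bad scales for initial segments and residue classes
-/

set_option autoImplicit false

open Finset Filter Topology

namespace Pool.Agent.H3.DP

open Pool.Agent.H31.DP

/-- the number of scales with a given initial segment -/
theorem card_fiber (J i m : ℕ) (hJ : 0 < J) (hi : 1 ≤ i) (s : Finset ℕ)
    (hs : ∀ N ∈ s, i * N / J = m) : s.card ≤ J := by
  have h1 : ∀ N ∈ s, ∀ N' ∈ s, N ≤ N' → N % J = N' % J → N = N' := by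
    intro N hN N' hN' hle hmod
    have a1 : i * N' < (m + 1) * J := (Nat.div_lt_iff_lt_mul hJ).1 (by rw [hs N' hN']; omega)
    have a2 : m * J ≤ i * N := (Nat.le_div_iff_mul_le hJ).1 (by rw [hs N hN])
    have a3 : J ∣ N' - N := (Nat.modEq_iff_dvd' hle).1 hmod
    have a4 : i * (N' - N) < J := by
      rw [Nat.mul_sub]
      have : (m + 1) * J = m * J + J := by ring
      omega
    have a5 : N' - N ≤ i * (N' - N) := Nat.le_mul_of_pos_left _ hi
    have a6 := Nat.eq_zero_of_dvd_of_lt a3 (lt_of_le_of_lt a5 a4)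
    omega
  have h2 : s.card ≤ (Finset.range J).card := by
    refine Finset.card_le_card_of_injOn (fun N => N % J) ?_ ?_
    · intro N _
      exact Finset.mem_coe.2 (Finset.mem_range.2 (Nat.mod_lt _ hJ))
    · intro N hN N' hN' h
      rcases le_total N N' with hle | hle
      · exact h1 N hN N' hN' hle h
      · exact (h1 N' hN' N hN hle h.symm).symm
  rwa [Finset.card_range] at h2

/-- one initial segment and one function -/
theorem one_seg (S : ℕ → ℝ) (J i x y : ℕ) {η : ℝ} (hJ : 0 < J) (hi : 1 ≤ i) (hiJ : i ≤ J)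
    (hη : 0 < η) (hx : 0 < x) (hS : S 0 = 0) :
    ∑ N ∈ (Finset.Icc x y).filter (fun N : ℕ => η * N < |S (i * N / J)|), (1 / (N : ℝ)) ≤
      (J / η) * ∑ m ∈ Finset.Icc (max 1 (x / J)) y, (1 / (m : ℝ)) * |S m / m| := by
  classical
  have hmap : ∀ N ∈ (Finset.Icc x y).filter (fun N : ℕ => η * N < |S (i * N / J)|),
      i * N / J ∈ Finset.Icc (max 1 (x / J)) y := by
    intro N hN
    rw [Finset.mem_filter, Finset.mem_Icc] at hN
    obtain ⟨⟨h1, h2⟩, h3⟩ := hN
    have hN0 : (0 : ℝ) < N := by exact_mod_cast lt_of_lt_of_le hx h1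
    rw [Finset.mem_Icc, max_le_iff]
    refine ⟨⟨?_, ?_⟩, ?_⟩
    · by_contra h4
      have h5 : i * N / J = 0 := Nat.lt_one_iff.1 (not_le.1 h4)
      rw [h5, hS, abs_zero] at h3
      have := mul_pos hη hN0
      linarith
    · refine Nat.div_le_div_right (h1.trans ?_)
      exact Nat.le_mul_of_pos_left _ hi
    · refine le_trans ?_ h2
      calc i * N / J ≤ J * N / J := Nat.div_le_div_right (Nat.mul_le_mul_right _ hiJ)
        _ = N := Nat.mul_div_cancel_left _ hJ
  rw [← Finset.sum_fiberwise_of_maps_to hmap, Finset.mul_sum]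
  refine Finset.sum_le_sum fun m hm => ?_
  have hm1 : 1 ≤ m := (le_max_left _ _).trans (Finset.mem_Icc.1 hm).1
  have hm0 : (0 : ℝ) < m := by exact_mod_cast hm1
  have h1 : ∀ N ∈ ((Finset.Icc x y).filter (fun N : ℕ => η * N < |S (i * N / J)|)).filter
      (fun N => i * N / J = m), (1 / (N : ℝ)) ≤ (1 / η) * ((1 / (m : ℝ)) * |S m / m|) := by
    intro N hN
    rw [Finset.mem_filter, Finset.mem_filter, Finset.mem_Icc] at hN
    obtain ⟨⟨⟨h1, h2⟩, h3⟩, h4⟩ := hN
    rw [h4] at h3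
    have hmN : m ≤ N := by
      rw [← h4]
      calc i * N / J ≤ J * N / J := Nat.div_le_div_right (Nat.mul_le_mul_right _ hiJ)
        _ = N := Nat.mul_div_cancel_left _ hJ
    have hmN' : (m : ℝ) ≤ N := by exact_mod_cast hmN
    have a1 : η ≤ |S m / m| := by
      rw [abs_div, abs_of_pos hm0, le_div_iff₀ hm0]
      exact (mul_le_mul_of_nonneg_left hmN' hη.le).trans h3.le
    calc 1 / (N : ℝ) ≤ 1 / m := one_div_le_one_div_of_le hm0 hmN'
      _ = (1 / η) * ((1 / (m : ℝ)) * η) := by field_simp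
      _ ≤ (1 / η) * ((1 / (m : ℝ)) * |S m / m|) := by gcongr
  have h2 := Finset.sum_le_card_nsmul _ _ _ h1
  refine h2.trans ?_
  rw [nsmul_eq_mul]
  have h3 : ((((Finset.Icc x y).filter (fun N : ℕ => η * N < |S (i * N / J)|)).filter
      (fun N => i * N / J = m)).card : ℝ) ≤ J := by
    exact_mod_cast card_fiber J i m hJ hi _ fun N hN => (Finset.mem_filter.1 hN).2
  calc _ ≤ (J : ℝ) * ((1 / η) * ((1 / (m : ℝ)) * |S m / m|)) :=
        mul_le_mul_of_nonneg_right h3 (by positivity)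
    _ = _ := by ring

theorem pf_M2 (hPR : StatementPR) : StatementM2 := by
  classical
  intro r β δ L J η ρ hP hJ hη hρ
  obtain ⟨S, hS⟩ : ∃ S : ℕ → ℕ → ℕ → ℝ, S = fun q n₀ m =>
      ∑ n ∈ (Finset.Icc 1 m).filter (fun n : ℕ => n ≡ n₀ [MOD q]), fm β δ n := ⟨_, rfl⟩
  have hJ0 : (0 : ℝ) < J := by exact_mod_cast hJ
  obtain ⟨ρ₁, hρ₁⟩ : ∃ ρ₁ : ℝ, ρ₁ = ρ * η / (2 * J * (L * L * J + 1)) := ⟨_, rfl⟩
  have hρ₁0 : 0 < ρ₁ := by
    rw [hρ₁]
    positivity
  have hK : ∀ q n₀ : ℕ, ∃ K : ℕ, 0 < q → ∀ x y : ℕ, 0 < x → K * x ≤ y →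
      ∑ N ∈ Finset.Icc x y, (1 / (N : ℝ)) * |S q n₀ N / N| ≤ ρ₁ * Real.log ((y : ℝ) / x) := by
    intro q n₀
    by_cases hq : 0 < q
    · obtain ⟨K, hK⟩ := hPR r β δ q n₀ ρ₁ hP hq hρ₁0
      refine ⟨K, fun _ => ?_⟩
      rw [hS]
      exact hK
    · exact ⟨0, fun h => absurd h hq⟩
  choose K hK using hK
  obtain ⟨K₀, hK₀⟩ : ∃ K₀ : ℕ, ∀ q n₀, q ≤ L → n₀ < q → K q n₀ ≤ K₀ := by
    refine ⟨(Finset.range (L + 1) ×ˢ Finset.range (L + 1)).sup (fun p => K p.1 p.2),
      fun q n₀ h1 h2 => ?_⟩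
    refine Finset.le_sup (f := fun p : ℕ × ℕ => K p.1 p.2) (b := (q, n₀)) ?_
    rw [Finset.mem_product, Finset.mem_range, Finset.mem_range]
    exact ⟨by simp only; omega, by simp only; omega⟩
  refine ⟨K₀ + 2 * J, fun x y hx hxy => ?_⟩
  have hx0 : (0 : ℝ) < x := by exact_mod_cast hx
  have hy1 : K₀ * x ≤ y := le_trans (Nat.mul_le_mul_right _ (by omega)) hxy
  have hy2 : 2 * J * x ≤ y := le_trans (Nat.mul_le_mul_right _ (by omega)) hxy
  have hy0 : 0 < y := lt_of_lt_of_le (by positivity) hy2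
  have hy0' : (0 : ℝ) < y := by exact_mod_cast hy0
  have hyx : 2 * (J : ℝ) ≤ (y : ℝ) / x := by
    rw [le_div_iff₀ hx0]
    exact_mod_cast hy2
  have hlog : Real.log (2 * J) ≤ Real.log ((y : ℝ) / x) := Real.log_le_log (by positivity) hyx
  have hJ1 : (1 : ℝ) ≤ J := by exact_mod_cast hJ
  have hlog0 : 0 ≤ Real.log ((y : ℝ) / x) := Real.log_nonneg (by linarith)
  -- the lower end point
  have hx1 : 0 < max 1 (x / J) := lt_of_lt_of_le one_pos (le_max_left _ _)
  have hx1x : max 1 (x / J) ≤ x := max_le hx (Nat.div_le_self _ _)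
  have hx2 : (x : ℝ) ≤ 2 * J * (max 1 (x / J) : ℕ) := by
    have h1 : x ≤ 2 * J * max 1 (x / J) := by
      have h2 : x < J * (x / J + 1) := by
        have h3 := Nat.div_add_mod x J
        have h4 := Nat.mod_lt x hJ
        rw [Nat.mul_add, Nat.mul_one]
        omega
      have h3 : x / J + 1 ≤ 2 * max 1 (x / J) := by omega
      calc x ≤ J * (x / J + 1) := h2.le
        _ ≤ J * (2 * max 1 (x / J)) := Nat.mul_le_mul_left _ h3
        _ = 2 * J * max 1 (x / J) := by ring
    exact_mod_cast h1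
  have hx1' : (0 : ℝ) < (max 1 (x / J) : ℕ) := by exact_mod_cast hx1
  have hlog1 : Real.log ((y : ℝ) / (max 1 (x / J) : ℕ)) ≤ 2 * Real.log ((y : ℝ) / x) := by
    have h1 : (y : ℝ) / (max 1 (x / J) : ℕ) ≤ 2 * J * ((y : ℝ) / x) := by
      rw [div_le_iff₀ hx1']
      have h2 : (2 : ℝ) * J * (y / x) * (max 1 (x / J) : ℕ) =
          (y / x) * (2 * J * (max 1 (x / J) : ℕ)) := by ring
      rw [h2]
      calc (y : ℝ) = (y / x) * x := by field_simp
        _ ≤ _ := mul_le_mul_of_nonneg_left hx2 (by positivity)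
    calc Real.log ((y : ℝ) / (max 1 (x / J) : ℕ)) ≤ Real.log (2 * J * ((y : ℝ) / x)) :=
          Real.log_le_log (by positivity) h1
      _ = Real.log (2 * J) + Real.log ((y : ℝ) / x) :=
          Real.log_mul (by positivity) (by positivity)
      _ ≤ _ := by linarith
  obtain ⟨T, hT⟩ : ∃ T : Finset (ℕ × ℕ × ℕ),
      T = (Finset.Icc 1 L ×ˢ (Finset.range L ×ˢ Finset.Icc 1 J)) := ⟨_, rfl⟩
  have hone : ∀ t ∈ T, ∑ N ∈ (Finset.Icc x y).filter
      (fun N : ℕ => η * N < |S t.1 t.2.1 (t.2.2 * N / J)|), (1 / (N : ℝ)) ≤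
        (J / η) * (ρ₁ * (2 * Real.log ((y : ℝ) / x))) ∨ ¬ t.2.1 < t.1 := by
    intro t ht
    rw [hT, Finset.mem_product, Finset.mem_product, Finset.mem_Icc, Finset.mem_range,
      Finset.mem_Icc] at ht
    by_cases hlt : t.2.1 < t.1
    · left
      refine (one_seg (S t.1 t.2.1) J t.2.2 x y hJ ht.2.2.1 ht.2.2.2 hη hx ?_).trans ?_
      · rw [hS]
        simp
      · refine mul_le_mul_of_nonneg_left ?_ (by positivity)
        refine (hK t.1 t.2.1 ht.1.1 _ _ hx1 ?_).trans ?_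
        · exact le_trans (Nat.mul_le_mul (hK₀ t.1 t.2.1 ht.1.2 hlt) hx1x) hy1
        · exact mul_le_mul_of_nonneg_left hlog1 hρ₁0.le
    · exact Or.inr hlt
  have hTc : ((T.card : ℕ) : ℝ) = L * (L * J) := by
    rw [hT, Finset.card_product, Finset.card_product, Finset.card_range, Nat.card_Icc,
      Nat.card_Icc]
    push_cast
    simp
  have hc : 0 ≤ (J / η) * (ρ₁ * (2 * Real.log ((y : ℝ) / x))) := by positivity
  calc ∑ N ∈ (Finset.Icc x y).filter (fun N : ℕ => ∃ q : ℕ, 1 ≤ q ∧ q ≤ L ∧ ∃ n₀ : ℕ,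
        n₀ < q ∧ ∃ i : ℕ, i ≤ J ∧ η * N <
          |∑ n ∈ (Finset.Icc 1 (i * N / J)).filter (fun n : ℕ => n ≡ n₀ [MOD q]), fm β δ n|),
        (1 / (N : ℝ))
      ≤ ∑ N ∈ Finset.Icc x y, ∑ t ∈ T.filter (fun t => t.2.1 < t.1),
          (if η * N < |S t.1 t.2.1 (t.2.2 * N / J)| then (1 / (N : ℝ)) else 0) := by
        rw [Finset.sum_filter]
        refine Finset.sum_le_sum fun N hN => ?_
        have hN1 := Finset.mem_Icc.1 hN
        have hN0 : (0 : ℝ) < N := by exact_mod_cast lt_of_lt_of_le hx hN1.1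
        have hnn : ∀ t ∈ T.filter (fun t => t.2.1 < t.1), (0 : ℝ) ≤
            if η * N < |S t.1 t.2.1 (t.2.2 * N / J)| then (1 / (N : ℝ)) else 0 := by
          intro t _
          split_ifs
          · positivity
          · exact le_rfl
        split_ifs with hb
        · obtain ⟨q, h1, h2, n₀, h3, i, h4, h5⟩ := hb
          have hi : 1 ≤ i := by
            by_contra h6
            have h7 : i = 0 := by omega
            rw [h7, Nat.zero_mul, Nat.zero_div] at h5
            simp only [Finset.Icc_eq_empty_of_lt Nat.one_pos, Finset.filter_empty,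
              Finset.sum_empty, abs_zero] at h5
            have := mul_pos hη hN0
            linarith
          have ht : (q, n₀, i) ∈ T.filter (fun t => t.2.1 < t.1) := by
            rw [Finset.mem_filter, hT, Finset.mem_product, Finset.mem_product, Finset.mem_Icc,
              Finset.mem_range, Finset.mem_Icc]
            exact ⟨⟨⟨h1, h2⟩, lt_of_lt_of_le h3 h2, hi, h4⟩, h3⟩
          have h8 := Finset.single_le_sum hnn ht
          have h9 : η * N < |S q n₀ (i * N / J)| := by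
            rw [hS]
            exact h5
          rw [if_pos h9] at h8
          exact h8
        · exact Finset.sum_nonneg hnn
    _ = ∑ t ∈ T.filter (fun t => t.2.1 < t.1), ∑ N ∈ (Finset.Icc x y).filter
          (fun N : ℕ => η * N < |S t.1 t.2.1 (t.2.2 * N / J)|), (1 / (N : ℝ)) := by
        rw [Finset.sum_comm]
        exact Finset.sum_congr rfl fun t _ => (Finset.sum_filter _ _).symm
    _ ≤ ∑ t ∈ T.filter (fun t => t.2.1 < t.1),
          (J / η) * (ρ₁ * (2 * Real.log ((y : ℝ) / x))) := by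
        refine Finset.sum_le_sum fun t ht => ?_
        rw [Finset.mem_filter] at ht
        rcases hone t ht.1 with h | h
        · exact h
        · exact absurd ht.2 h
    _ = ((T.filter (fun t => t.2.1 < t.1)).card : ℝ) *
          ((J / η) * (ρ₁ * (2 * Real.log ((y : ℝ) / x)))) := by
        rw [Finset.sum_const, nsmul_eq_mul]
    _ ≤ (L * (L * J)) * ((J / η) * (ρ₁ * (2 * Real.log ((y : ℝ) / x)))) := by
        refine mul_le_mul_of_nonneg_right ?_ hc
        rw [← hTc]
        exact_mod_cast Finset.card_le_card (Finset.filter_subset _ _)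
    _ ≤ (L * L * J + 1) * ((J / η) * (ρ₁ * (2 * Real.log ((y : ℝ) / x)))) := by
        refine mul_le_mul_of_nonneg_right ?_ hc
        linarith [mul_assoc (L : ℝ) L J]
    _ = ρ * Real.log ((y : ℝ) / x) := by
        rw [hρ₁]
        field_simp

end Pool.Agent.H3.DP
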